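import Pool.Agent.CvR.Grow

/-!
# Package CvR-RR: Riemann-Roch for large degree (page 3.1)

Suppose `V N ⊔ I ≠ ⊤`; `exists_phi` gives `φ`. `J = ann φ ⊇ I` (`φ (a b) = 0` for `a ∈ I`), so `A
⧸ J` is finite
dimensional, `e = finrank (A ⧸ J) ≤ e0 = finrank (A ⧸ I)`, `J ≠ ⊤` since `φ ≠ 0`, so `1 ≤ e`.
For `N1 + N2 ≤ N`: `pair_le` with `V N1`, `V N2` (products are in `V (N1 + N2) ≤ V N`, `φ`
vanishes there).
`M1 = (e - 1) / d` (natural division).

Case `d ≤ M1 + 1`. `M2 = min M1 (N - M1)`. `d M1 ≤ e - 1`. `d N ≥ e + d ^ 3` gives `N - M1 ≥ d ^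
2 ≥ d - 1`.
`img_inj` for `M1` and `M2` and `F.dim`: `(d M1 + 1 - pa) + (d M2 + 1 - pa) ≤ e`. If `M2 = M1`:
`d M1 ≥ e - d`, so
`2 (e - d) + 2 ≤ e + 2 pa = e + (d - 1)(d - 2)`, `e ≤ d (d - 1)`, but `d (d - 1) ≤ d M1 ≤ e - 1`.
If `M2 = N - M1`: `d N + 2 ≤ e + 2 pa ≤ d N - d ^ 3 + (d - 1)(d - 2)`, false.
Case `M1 + 1 < d`: `e ≤ d (d - 1) ≤ N` (`e - 1 < d (M1 + 1) ≤ d (d - 1)`; `N ≥ d ^ 2`),
`img_grow` for `M = N`:
`finrank (img J (V N)) ≥ min e (N + 1) = e`, so `img J (V N) = ⊤`; every `a` is `v + j`, `φ a = φ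
v + φ (j 1) = 0`.
Contradiction with `φ ≠ 0`.

`two_pa`: `2 * pa d = (d - 1) * (d - 2)` (a product of two consecutive numbers is even; cases `d
= 0, 1, 2`
and `d = n + 2`).
-/

set_option autoImplicit false

namespace Pool.Agent.CvR

open Pool.Agent.CvA

theorem two_pa (d : ℕ) : 2 * pa d = (d - 1) * (d - 2) := by
  rw [pa]
  refine Nat.mul_div_cancel' ?_
  rcases d with _ | _ | n
  · exact dvd_zero 2
  · exact dvd_zero 2
  · have h1 : n + 1 + 1 - 1 = n + 1 := by omega
    have h2 : n + 1 + 1 - 2 = n := by omega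
    rw [h1, h2, mul_comm]
    exact (Nat.even_mul_succ_self n).two_dvd

private theorem sub_RR {d : ℕ} (hd : 1 ≤ d) : (d - 1) * (d - 2) + 3 * d = d * d + 2 := by
  rcases d with _ | _ | n
  · omega
  · rfl
  · have h1 : n + 1 + 1 - 1 = n + 1 := by omega
    have h2 : n + 1 + 1 - 2 = n := by omega
    rw [h1, h2]
    ring

variable {k A B : Type} [Field k] [CommRing A] [IsDomain A] [Algebra k A] [CommRing B]
  [Algebra k B] {d : ℕ}

/-- the arithmetic of the first case, `M2 = M1` -/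
private theorem caseA_RR {d e M1 : ℕ} (hd : 1 ≤ d) (h1 : d * M1 + 1 ≤ e)
    (h2 : e ≤ d * M1 + d) (h3 : d ≤ M1 + 1)
    (h4 : (d * M1 + 1) + (d * M1 + 1) ≤ e + (d - 1) * (d - 2)) : False := by
  have h5 := sub_RR hd
  obtain ⟨c, rfl⟩ : ∃ c, d = c + 1 := ⟨d - 1, by omega⟩
  have h6 : c ≤ M1 := by omega
  have h7 : (c + 1) * c ≤ (c + 1) * M1 := Nat.mul_le_mul_left _ h6
  have h8 : (c + 1) * (c + 1) = (c + 1) * c + (c + 1) := by ring
  omega

/-- the arithmetic of the first case, `M2 = N - M1` -/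
private theorem caseB_RR {d e M1 M2 N : ℕ} (hd : 1 ≤ d) (h1 : M1 + M2 = N)
    (h3 : e + d ^ 3 ≤ d * N)
    (h4 : (d * M1 + 1) + (d * M2 + 1) ≤ e + (d - 1) * (d - 2)) : False := by
  have h5 := sub_RR hd
  have h6 : d * M1 + d * M2 = d * N := by rw [← h1]; ring
  have h7 : d * d ≤ d ^ 3 := by
    have h8 : d ^ 3 = d * d * d := by ring
    rw [h8]
    exact Nat.le_mul_of_pos_right _ hd
  omega

omit [IsDomain A] in
/-- a functional with small image of the filtration vanishes -/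
private theorem zero_RR (φ : A →ₗ[k] k) (U : Submodule k A) (hU : ∀ u ∈ U, φ u = 0)
    (h : img (ann φ) U = ⊤) : φ = 0 := by
  refine LinearMap.ext fun a => ?_
  have h1 : Ideal.Quotient.mk (ann φ) a ∈ img (ann φ) U := by
    rw [h]
    exact Submodule.mem_top
  obtain ⟨v, hv, hva⟩ := h1
  have h2 : Ideal.Quotient.mk (ann φ) v = Ideal.Quotient.mk (ann φ) a := hva
  have h3 : v - a ∈ ann φ := Ideal.Quotient.eq.1 h2
  have h4 : ∀ b, φ ((v - a) * b) = 0 := h3
  have h5 := h4 1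
  rw [mul_one, map_sub, hU v hv, zero_sub, neg_eq_zero] at h5
  exact h5

theorem rr (F : Flt k A B d) (I : Ideal A) [FiniteDimensional k (A ⧸ I)] {N : ℕ}
    (h : Module.finrank k (A ⧸ I) + d ^ 3 ≤ d * N) :
    F.V N ⊔ I.restrictScalars k = ⊤ := by
  by_contra hne
  obtain ⟨φ, hφ, hφV, hφI⟩ := exists_phi (F.V N) I hne
  have hd := F.one_le
  have hIJ : I ≤ ann φ := by
    intro a ha
    have h1 : ∀ b, φ (a * b) = 0 := fun b => hφI _ (Ideal.mul_mem_right _ _ ha)
    exact h1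
  have hsurj : Function.Surjective (Ideal.Quotient.factorₐ k hIJ).toLinearMap :=
    Ideal.Quotient.factor_surjective hIJ
  have hfin : FiniteDimensional k (A ⧸ ann φ) := Module.Finite.of_surjective _ hsurj
  have he0 := LinearMap.finrank_le_finrank_of_surjective hsurj
  have hJ : ann φ ≠ ⊤ := by
    intro ht
    have h1 : (1 : A) ∈ ann φ := by
      rw [ht]
      exact Submodule.mem_top
    have h2 : ∀ b, φ (1 * b) = 0 := h1
    refine hφ (LinearMap.ext fun b => ?_)
    have h3 := h2 b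
    rw [one_mul] at h3
    exact h3
  have hnt : Nontrivial (A ⧸ ann φ) := Ideal.Quotient.nontrivial_iff.2 hJ
  have he : 0 < Module.finrank k (A ⧸ ann φ) := Module.finrank_pos
  generalize hee : Module.finrank k (A ⧸ ann φ) = e at he he0
  generalize hee0 : Module.finrank k (A ⧸ I) = e0 at h he0
  obtain ⟨M1, hM1⟩ : ∃ M1, M1 = (e - 1) / d := ⟨_, rfl⟩
  have h1 : d * M1 ≤ e - 1 := by
    rw [hM1]
    exact Nat.mul_div_le _ _
  have h2 : e - 1 < d * (M1 + 1) := by
    rw [hM1]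
    exact Nat.lt_mul_div_succ _ hd
  have h2' : d * (M1 + 1) = d * M1 + d := by ring
  have h3 : d ^ 3 = d * d ^ 2 := by ring
  by_cases hc : d ≤ M1 + 1
  · have hN1 : M1 < N := by
      by_contra hcon
      have h4 : d * N ≤ d * M1 := Nat.mul_le_mul_left _ (by omega)
      omega
    obtain ⟨K, hK⟩ : ∃ K, N = M1 + K := ⟨N - M1, by omega⟩
    have hKd : d ^ 2 ≤ K := by
      by_contra hcon
      have h4 : d * (K + 1) ≤ d * d ^ 2 := Nat.mul_le_mul_left _ (by omega)
      have h5 : d * N = d * M1 + d * K := by rw [hK]; ring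
      have h6 : d * (K + 1) = d * K + d := by ring
      omega
    have hdd : d ≤ d ^ 2 := by
      rw [pow_two]
      exact Nat.le_mul_of_pos_right _ hd
    have hpair : ∀ M2, M2 ≤ M1 → M2 ≤ K → d ≤ M2 + 1 →
        (d * M1 + 1) + (d * M2 + 1) ≤ e + (d - 1) * (d - 2) := by
      intro M2 h4 h5 h6
      have h7 : d * M2 ≤ d * M1 := Nat.mul_le_mul_left _ h4
      have h8 := img_inj F (ann φ) (M := M1) (by rw [hee]; omega)
      have h9 := img_inj F (ann φ) (M := M2) (by rw [hee]; omega)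
      have h10 := F.dim M1 hc
      have h11 := F.dim M2 h6
      have h12 := pair_le φ (F.V M1) (F.V M2) (fun u hu u' hu' =>
        hφV _ (mono_le F (by omega) (F.mul hu hu')))
      have h13 := two_pa d
      omega
    by_cases hK1 : M1 ≤ K
    · exact caseA_RR hd (by omega) (by omega) hc (hpair M1 le_rfl hK1 hc)
    · exact caseB_RR hd hK.symm (e := e) (by omega) (hpair K (by omega) le_rfl (by omega))
  · have hed : e ≤ d * d := by
      have h4 : d * (M1 + 1) ≤ d * d := Nat.mul_le_mul_left _ (by omega)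
      omega
    have hNd : d * d ≤ N := by
      by_contra hcon
      have h4 : d * (N + 1) ≤ d * (d * d) := Nat.mul_le_mul_left _ (by omega)
      have h5 : d * (N + 1) = d * N + d := by ring
      have h6 : d ^ 3 = d * (d * d) := by ring
      omega
    have h4 := img_grow F (ann φ) hJ N
    rw [hee] at h4
    have h5 : min e (N + 1) = e := min_eq_left (by omega)
    rw [h5] at h4
    have h6 : img (ann φ) (F.V N) = ⊤ := by
      refine Submodule.eq_top_of_finrank_eq (le_antisymm (Submodule.finrank_le _) ?_)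
      rw [hee]
      exact h4
    exact hφ (zero_RR φ (F.V N) hφV h6)

end Pool.Agent.CvR
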