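import Pool.Agent.CvR.Bez

/-!
# Package CvR-Dim: Bezout (page 2.1, 2.2)

`bez_le`: for `g ∈ V M`, `g ≠ 0`, and every `L` with `d ≤ L + 1`: multiplication by `g` is
injective (domain),
maps `V L` into `V (M + L) ∩ gA`, `finrank (V (M + L)) = finrank (V L) + d M` (`F.dim`). So the
image of
`V (M + L)` in `A ⧸ gA` has `finrank ≤ d M` (rank-nullity for `V (M + L) → A ⧸ gA`: the kernel
contains
the image of `V L`). The images are an increasing sequence of subspaces with union `⊤` (`F.exh`).
Hence `A ⧸ gA` is finite dimensional of dimension at most `d M`: every linearly independent family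
`Fin n → A ⧸ gA` lies in one of the images (choose lifts, take the maximum of the degrees), so
`n ≤ d M` (for instance `Module.finrank_le_of_...`/`rank_le` with `LinearIndependent` and
`Module.finite_of_rank...`, or: let `L` be such that the image has maximal dimension, then all
later images are equal to it, so it is `⊤`).

`bez_eq`: if `l M g` is a unit then the kernel of `V (M + L) → A ⧸ gA` is exactly `g V L`
(`bez_mem`), so the
images have dimension exactly `d M`, also in the limit. Here `g ≠ 0` as `B` is not trivial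
(`dimB`, `one_le`), when needed. `bez_eq` does not need `IsDomain A`, multiplication by `g` is
injective
by `bez_mem`-like arguments, but you may use `IsDomain A`.
-/

set_option autoImplicit false

namespace Pool.Agent.CvR

open Pool.Agent.CvA

variable {k A B : Type} [Field k] [CommRing A] [IsDomain A] [Algebra k A] [CommRing B]
  [Algebra k B] {d : ℕ}

/-- the quotient map as a linear map -/
private noncomputable def mp_Dim (k : Type) {A : Type} [Field k] [CommRing A] [Algebra k A]
    (g : A) : A →ₗ[k] A ⧸ Ideal.span {g} :=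
  (Ideal.Quotient.mkₐ k (Ideal.span {g})).toLinearMap

private theorem mp_eq_Dim (g a : A) :
    mp_Dim k g a = Ideal.Quotient.mk (Ideal.span {g}) a := rfl

private theorem key_Dim (F : Flt k A B d) {M : ℕ} {g : A} (hg : g ∈ F.V M) (h0 : g ≠ 0) {L : ℕ}
    (hL : d ≤ L + 1) :
    Module.finrank k ((F.V (M + L)).map (mp_Dim k g)) ≤ d * M ∧
      (IsUnit (F.l M g) → Module.finrank k ((F.V (M + L)).map (mp_Dim k g)) = d * M) := by
  have hf1 := F.fin (M + L)
  have hf2 := F.fin L
  let f := (mp_Dim k g).domRestrict (F.V (M + L))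
  have hr : LinearMap.range f = (F.V (M + L)).map (mp_Dim k g) := LinearMap.range_domRestrict _ _
  have hrn := LinearMap.finrank_range_add_finrank_ker f
  let ψ : F.V L →ₗ[k] LinearMap.ker f :=
    { toFun := fun a => ⟨⟨g * (a : A), F.mul hg a.2⟩, by
        rw [LinearMap.mem_ker]
        change mp_Dim k g (g * (a : A)) = 0
        rw [mp_eq_Dim, Ideal.Quotient.eq_zero_iff_mem]
        exact Ideal.mul_mem_right _ _ (Ideal.mem_span_singleton_self g)⟩
      map_add' := fun a b => by
        apply Subtype.ext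
        apply Subtype.ext
        change g * ((a : A) + (b : A)) = g * (a : A) + g * (b : A)
        ring
      map_smul' := fun c a => by
        apply Subtype.ext
        apply Subtype.ext
        change g * (c • (a : A)) = c • (g * (a : A))
        rw [mul_smul_comm] }
  have hψ : Function.Injective ψ := by
    intro a b hab
    have h1 : ((ψ a).1 : A) = ((ψ b).1 : A) := by rw [hab]
    change g * (a : A) = g * (b : A) at h1
    exact Subtype.ext (mul_left_cancel₀ h0 h1)
  have h1 := LinearMap.finrank_le_finrank_of_injective hψ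
  have h2 := F.dim (M + L) (by omega)
  have h3 := F.dim L hL
  have h4 : d * (M + L) = d * M + d * L := Nat.mul_add _ _ _
  rw [hr] at hrn
  refine ⟨by omega, fun hu => ?_⟩
  have hs : Function.Surjective ψ := by
    rintro ⟨⟨x, hx⟩, hxk⟩
    rw [LinearMap.mem_ker] at hxk
    change mp_Dim k g x = 0 at hxk
    rw [mp_eq_Dim, Ideal.Quotient.eq_zero_iff_mem, Ideal.mem_span_singleton] at hxk
    obtain ⟨a, ha⟩ := hxk
    have h5 : a ∈ F.V L := bez_mem F hg hu (by rw [← ha]; exact hx)
    refine ⟨⟨a, h5⟩, ?_⟩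
    apply Subtype.ext
    apply Subtype.ext
    change g * a = x
    exact ha.symm
  have h6 := (LinearEquiv.ofBijective ψ ⟨hψ, hs⟩).finrank_eq
  omega

private theorem stab_Dim (F : Flt k A B d) {M : ℕ} {g : A} (hg : g ∈ F.V M) (h0 : g ≠ 0) :
    ∃ L, d ≤ L + 1 ∧ (F.V (M + L)).map (mp_Dim k g) = ⊤ := by
  let S : Set ℕ := {n | ∃ L, d ≤ L + 1 ∧
    n = Module.finrank k ((F.V (M + L)).map (mp_Dim k g))}
  have hne : S.Nonempty := ⟨_, d, Nat.le_succ d, rfl⟩
  have hb : BddAbove S := by
    refine ⟨d * M, ?_⟩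
    rintro n ⟨L, hL, rfl⟩
    exact (key_Dim F hg h0 hL).1
  obtain ⟨L₀, hL₀, hS⟩ := Nat.sSup_mem hne hb
  have hmax : ∀ L, d ≤ L + 1 → Module.finrank k ((F.V (M + L)).map (mp_Dim k g)) ≤
      Module.finrank k ((F.V (M + L₀)).map (mp_Dim k g)) := by
    intro L hL
    rw [← hS]
    exact le_csSup hb ⟨L, hL, rfl⟩
  refine ⟨L₀, hL₀, ?_⟩
  rw [eq_top_iff]
  rintro q -
  obtain ⟨a, rfl⟩ := Ideal.Quotient.mk_surjective q
  obtain ⟨N, hN⟩ := F.exh a
  have hfin := F.fin (M + max L₀ N)
  have h1 : (F.V (M + L₀)).map (mp_Dim k g) ≤ (F.V (M + max L₀ N)).map (mp_Dim k g) :=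
    Submodule.map_mono (mono_le F (by omega))
  have h2 := Submodule.eq_of_le_of_finrank_le h1
    (hmax (max L₀ N) (by omega))
  rw [h2]
  exact ⟨a, mono_le F (by omega) hN, rfl⟩

theorem bez_le (F : Flt k A B d) {M : ℕ} {g : A} (hg : g ∈ F.V M) (h0 : g ≠ 0) :
    FiniteDimensional k (A ⧸ Ideal.span {g}) ∧
      Module.finrank k (A ⧸ Ideal.span {g}) ≤ d * M := by
  obtain ⟨L, hL, ht⟩ := stab_Dim F hg h0
  have hfin := F.fin (M + L)
  have h1 : FiniteDimensional k ((F.V (M + L)).map (mp_Dim k g)) := inferInstance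
  rw [ht] at h1
  have h2 := (key_Dim F hg h0 hL).1
  rw [ht, finrank_top] at h2
  exact ⟨Module.Finite.equiv Submodule.topEquiv, h2⟩

theorem bez_eq (F : Flt k A B d) {M : ℕ} {g : A} (hg : g ∈ F.V M) (hu : IsUnit (F.l M g)) :
    Module.finrank k (A ⧸ Ideal.span {g}) = d * M := by
  have h0 : g ≠ 0 := by
    rintro rfl
    rw [map_zero, isUnit_zero_iff] at hu
    have h1 := F.dimB
    have h2 := F.one_le
    have h3 : Subsingleton B := subsingleton_of_zero_eq_one hu
    rw [Module.finrank_zero_of_subsingleton] at h1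
    omega
  obtain ⟨L, hL, ht⟩ := stab_Dim F hg h0
  have h2 := (key_Dim F hg h0 hL).2 hu
  rwa [ht, finrank_top] at h2

end Pool.Agent.CvR
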