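import Pool.Agent.CvA.Defs

/-!
# Package CvR-Bez: division by elements with invertible leading form (page 2.2)

`bez_mem`: let `g a ∈ V (L + M)`, `a ∈ V L'` with `L'` minimal (`F.exh`, `Nat.find`; case `a = 0`
is
trivial). Suppose `L' > L`, `L' = L'' + 1`. Then `a ∉ V L''`, so `l L' a ≠ 0` (`l_succ`) and
`l (M + L') (g a) = l M g * l L' a ≠ 0` as `l M g` is a unit. But `g a ∈ V (L + M) ≤ V (M + L'')`
(monotone), so `l (M + L'' + 1) (g a) = 0` by `l_succ`. Contradiction.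
Take care of `L' = 0`: then `a ∈ V 0 ≤ V L`.

`mono_le`: `V` is monotone (`monotone_nat_of_le_succ`).
`E_mul`, `E_one`: `l_mul`, `gh - 1 = (g - 1) h + (h - 1)`; for `1 ∈ E 0` use `F.zero`
(`V 0 = 1`, `Submodule.one_le`), `l_one`.
-/

set_option autoImplicit false

namespace Pool.Agent.CvR

open Pool.Agent.CvA

variable {k A B : Type} [Field k] [CommRing A] [Algebra k A] [CommRing B] [Algebra k B] {d : ℕ}

theorem mono_le (F : Flt k A B d) {N M : ℕ} (h : N ≤ M) : F.V N ≤ F.V M := by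
  exact monotone_nat_of_le_succ F.mono h

theorem bez_mem (F : Flt k A B d) {M L : ℕ} {g a : A} (hg : g ∈ F.V M) (hu : IsUnit (F.l M g))
    (h : g * a ∈ F.V (M + L)) : a ∈ F.V L := by
  classical
  by_contra hcon
  have hex : ∃ N, a ∈ F.V N := F.exh a
  have hspec := Nat.find_spec hex
  have hmin : ∀ N, N < Nat.find hex → a ∉ F.V N := fun N hN => Nat.find_min hex hN
  generalize Nat.find hex = L' at hspec hmin
  have hL : L < L' := by
    by_contra hle
    exact hcon (mono_le F (not_lt.1 hle) hspec)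
  obtain ⟨L'', rfl⟩ : ∃ L'', L' = L'' + 1 := ⟨L' - 1, by omega⟩
  have h1 : a ∉ F.V L'' := hmin L'' (Nat.lt_succ_self L'')
  have h2 : F.l (L'' + 1) a ≠ 0 := fun h0 => h1 ((F.l_succ L'' a hspec).1 h0)
  have h3 : F.l (M + (L'' + 1)) (g * a) = F.l M g * F.l (L'' + 1) a := F.l_mul hg hspec
  have h4 : g * a ∈ F.V (M + L'') := mono_le F (by omega) h
  have h5 : F.l (M + L'' + 1) (g * a) = 0 :=
    (F.l_succ (M + L'') (g * a) (F.mono _ h4)).2 h4
  have h6 : F.l M g * F.l (L'' + 1) a = 0 := by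
    rw [← h3]
    exact h5
  exact h2 ((IsUnit.mul_right_eq_zero hu).1 h6)

variable {F : Flt k A B d} (P : Md F)

theorem E_one : (1 : A) ∈ P.E 0 := by
  refine ⟨?_, F.l_one, ?_⟩
  · rw [F.zero]
    exact Submodule.one_le.1 le_rfl
  · rw [sub_self]
    exact dvd_zero _

theorem E_mul {N M : ℕ} {g h : A} (hg : g ∈ P.E N) (hh : h ∈ P.E M) : g * h ∈ P.E (N + M) := by
  obtain ⟨hg1, hg2, hg3⟩ := hg
  obtain ⟨hh1, hh2, hh3⟩ := hh
  refine ⟨F.mul hg1 hh1, ?_, ?_⟩
  · rw [F.l_mul hg1 hh1, hg2, hh2, mul_one]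
  · have h1 : g * h - 1 = (g - 1) * h + (h - 1) := by ring
    rw [h1]
    exact dvd_add (Dvd.dvd.mul_right hg3 h) hh3

end Pool.Agent.CvR
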