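import Pool.Agent.CvR.RR

/-!
# Package CvR-Cor: dimensions of the subspaces of ideals (page 3.2, 3.3)

`rr_dim`: `V N → A ⧸ I` is onto (`rr`), the kernel is `V N ∩ I`; rank-nullity and `F.dim` (`d ≤ N
+ 1` because
`d ^ 3 ≤ d N`).
`rr_up`: let `N' = (finrank (A ⧸ I) + d ^ 3 + d - 1) / d` (rounded up); then `N ≤ N'`,
`d N' ≤ finrank + d ^ 3 + d - 1`, `cutA I N ≤ cutA I N'`, `rr_dim` for `N'`:
`finrank (cutA I N') = d N' + 1 - pa - finrank (A ⧸ I) ≤ d ^ 3 + d`.
`pa_le`: `pa d ≤ d ^ 2` (`two_pa`).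
-/

set_option autoImplicit false

namespace Pool.Agent.CvR

open Pool.Agent.CvA

theorem pa_le (d : ℕ) : pa d ≤ d ^ 2 := by
  unfold pa
  refine (Nat.div_le_self _ _).trans ?_
  rw [pow_two]
  exact Nat.mul_le_mul (Nat.sub_le _ _) (Nat.sub_le _ _)

variable {k A B : Type} [Field k] [CommRing A] [IsDomain A] [Algebra k A] [CommRing B]
  [Algebra k B] {d : ℕ}

theorem rr_dim (F : Flt k A B d) (I : Ideal A) [FiniteDimensional k (A ⧸ I)] {N : ℕ}
    (h : Module.finrank k (A ⧸ I) + d ^ 3 ≤ d * N) :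
    Module.finrank k (F.cutA I N) + pa d + Module.finrank k (A ⧸ I) = d * N + 1 := by
  have hfin := F.fin N
  have hd := F.one_le
  have hN : d ≤ N + 1 := by
    have h1 : d * d ^ 2 ≤ d * N := by
      have h2 : d * d ^ 2 = d ^ 3 := by ring
      omega
    have h3 : d ^ 2 ≤ N := Nat.le_of_mul_le_mul_left h1 hd
    have h4 : d ≤ d ^ 2 := by
      rw [pow_two]
      exact Nat.le_mul_of_pos_right d hd
    omega
  have hdim := F.dim N hN
  obtain ⟨f, hf⟩ : ∃ f : F.V N →ₗ[k] A ⧸ I, ∀ x, f x = Ideal.Quotient.mk I (x : A) :=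
    ⟨(Ideal.Quotient.mkₐ k I).toLinearMap.comp (F.V N).subtype, fun _ => rfl⟩
  have hrange : LinearMap.range f = ⊤ := by
    rw [LinearMap.range_eq_top]
    intro y
    obtain ⟨a, rfl⟩ := Ideal.Quotient.mk_surjective y
    have ha : a ∈ F.V N ⊔ I.restrictScalars k := by
      rw [rr F I h]
      exact Submodule.mem_top
    obtain ⟨v, hv, i, hi, hvi⟩ := Submodule.mem_sup.1 ha
    refine ⟨⟨v, hv⟩, ?_⟩
    rw [hf]
    refine Ideal.Quotient.eq.2 ?_
    have h1 : v - a = - i := by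
      rw [← hvi]
      ring
    change v - a ∈ I
    rw [h1]
    exact I.neg_mem hi
  have hker : (LinearMap.ker f).map (F.V N).subtype = F.cutA I N := by
    ext a
    rw [Submodule.mem_map]
    constructor
    · rintro ⟨x, hx, rfl⟩
      refine Submodule.mem_inf.2 ⟨x.2, ?_⟩
      have h1 := LinearMap.mem_ker.1 hx
      rw [hf] at h1
      exact Ideal.Quotient.eq_zero_iff_mem.1 h1
    · intro ha
      obtain ⟨h1, h2⟩ := Submodule.mem_inf.1 ha
      refine ⟨⟨a, h1⟩, ?_, rfl⟩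
      rw [LinearMap.mem_ker, hf]
      exact Ideal.Quotient.eq_zero_iff_mem.2 h2
  have hrn := LinearMap.finrank_range_add_finrank_ker f
  rw [hrange, finrank_top, ← Submodule.finrank_map_subtype_eq (F.V N) (LinearMap.ker f),
    hker] at hrn
  omega

theorem rr_up (F : Flt k A B d) (I : Ideal A) [FiniteDimensional k (A ⧸ I)] {N : ℕ}
    (h : d * N < Module.finrank k (A ⧸ I) + d ^ 3) :
    Module.finrank k (F.cutA I N) ≤ d ^ 3 + d := by
  have hd := F.one_le
  obtain ⟨c, hc⟩ : ∃ c, c = Module.finrank k (A ⧸ I) := ⟨_, rfl⟩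
  obtain ⟨N', hN'⟩ : ∃ N', N' = (c + d ^ 3 + d - 1) / d := ⟨_, rfl⟩
  have h1 : d * N' ≤ c + d ^ 3 + d - 1 := by
    rw [hN']
    exact Nat.mul_div_le _ _
  have h2 : c + d ^ 3 ≤ d * N' := by
    have h3 := Nat.lt_mul_div_succ (c + d ^ 3 + d - 1) (show 0 < d by omega)
    rw [← hN', Nat.mul_succ] at h3
    omega
  rw [← hc] at h
  have h4 : N ≤ N' := by
    have h5 : d * N < d * N' := by omega
    exact (Nat.lt_of_mul_lt_mul_left h5).le
  have h6 : F.cutA I N ≤ F.cutA I N' :=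
    inf_le_inf_right _ (monotone_nat_of_le_succ F.mono h4)
  have hfin := F.fin N'
  have hfin' : FiniteDimensional k (F.cutA I N') :=
    Submodule.finiteDimensional_of_le (inf_le_left : F.cutA I N' ≤ F.V N')
  have h7 := Submodule.finrank_mono h6
  have h8 := rr_dim F I (N := N') (by rw [← hc]; exact h2)
  omega

end Pool.Agent.CvR
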