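import Pool.Agent.CvA.Defs

/-!
# Package CvR-Pair: the pairing (page 3.1)

Linear algebra. `img J U` is the image of the subspace `U` in `A ⧸ J`.

`exists_phi`: if `U ⊔ I ≠ ⊤` there is a functional `φ ≠ 0` on `A` which vanishes on `U` and `I`
(`Submodule.exists_le_ker_of_lt_top`, or a functional on the quotient).

`ann φ`: the ideal of the `a` with `φ (a b) = 0` for all `b`.

`pair_le`: on `A ⧸ J`, `J = ann φ`, the bilinear form `φ(ab)` is well defined (commutative ring)
and
nondegenerate. If `φ (u u') = 0` for all `u ∈ U`, `u' ∈ U'` then `finrank (img U) + finrank (img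
U') ≤
finrank (A ⧸ J)`. Mathlib: `LinearMap.BilinForm`, `LinearMap.BilinForm.finrank_orthogonal` (with
`Nondegenerate`, `IsRefl`), or directly: the map `A ⧸ J → Module.Dual k (img U')` has kernel
containing
`img U`, is onto because the form is nondegenerate.
-/

set_option autoImplicit false

namespace Pool.Agent.CvR

open Pool.Agent.CvA

variable {k A : Type} [Field k] [CommRing A] [Algebra k A]

/-- the image of a subspace in the quotient by an ideal -/
def img (J : Ideal A) (U : Submodule k A) : Submodule k (A ⧸ J) :=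
  U.map (Ideal.Quotient.mkₐ k J).toLinearMap

/-- the largest ideal in the kernel of a functional -/
def ann (φ : A →ₗ[k] k) : Ideal A where
  carrier := {a | ∀ b, φ (a * b) = 0}
  add_mem' := by
    intro a b ha hb c
    rw [add_mul, map_add, ha c, hb c, add_zero]
  zero_mem' := by
    intro b
    rw [zero_mul, map_zero]
  smul_mem' := by
    intro c a ha b
    rw [smul_eq_mul, mul_comm c a, mul_assoc]
    exact ha _

theorem exists_phi (U : Submodule k A) (I : Ideal A) (h : U ⊔ I.restrictScalars k ≠ ⊤) :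
    ∃ φ : A →ₗ[k] k, φ ≠ 0 ∧ (∀ u ∈ U, φ u = 0) ∧ (∀ u ∈ I, φ u = 0) := by
  obtain ⟨φ, h0, h1⟩ := Submodule.exists_le_ker_of_lt_top _ (lt_top_iff_ne_top.2 h)
  refine ⟨φ, h0, fun u hu => ?_, fun u hu => ?_⟩
  · exact LinearMap.mem_ker.1 (h1 (Submodule.mem_sup_left hu))
  · exact LinearMap.mem_ker.1 (h1 (Submodule.mem_sup_right
      ((Submodule.restrictScalars_mem k I u).2 hu)))

private theorem vanish_Pair (φ : A →ₗ[k] k) :
    (ann φ).restrictScalars k ≤ LinearMap.ker φ := by
  intro a ha
  have h1 : ∀ b, φ (a * b) = 0 := (Submodule.restrictScalars_mem k (ann φ) a).1 ha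
  have h2 := h1 1
  rw [mul_one] at h2
  exact LinearMap.mem_ker.2 h2

/-- the functional on the quotient -/
private noncomputable def bar_Pair (φ : A →ₗ[k] k) : (A ⧸ ann φ) →ₗ[k] k :=
  (((ann φ).restrictScalars k).liftQ φ (vanish_Pair φ)).comp
    (Submodule.Quotient.restrictScalarsEquiv k (ann φ)).symm.toLinearMap

private theorem bar_mk_Pair (φ : A →ₗ[k] k) (a : A) :
    bar_Pair φ (Ideal.Quotient.mk (ann φ) a) = φ a := rfl

/-- the bilinear form on the quotient -/
private noncomputable def form_Pair (φ : A →ₗ[k] k) :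
    LinearMap.BilinForm k (A ⧸ ann φ) :=
  (LinearMap.mul k (A ⧸ ann φ)).compr₂ (bar_Pair φ)

private theorem form_mk_Pair (φ : A →ₗ[k] k) (a b : A) :
    form_Pair φ (Ideal.Quotient.mk (ann φ) a) (Ideal.Quotient.mk (ann φ) b) = φ (a * b) := rfl

private theorem nondeg_Pair (φ : A →ₗ[k] k) : (form_Pair φ).Nondegenerate := by
  constructor
  · intro x hx
    obtain ⟨a, rfl⟩ := Ideal.Quotient.mk_surjective x
    rw [Ideal.Quotient.eq_zero_iff_mem]
    intro b
    exact hx (Ideal.Quotient.mk (ann φ) b)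
  · intro x hx
    obtain ⟨a, rfl⟩ := Ideal.Quotient.mk_surjective x
    rw [Ideal.Quotient.eq_zero_iff_mem]
    intro b
    rw [mul_comm]
    exact hx (Ideal.Quotient.mk (ann φ) b)

theorem pair_le (φ : A →ₗ[k] k) [FiniteDimensional k (A ⧸ ann φ)] (U U' : Submodule k A)
    (h : ∀ u ∈ U, ∀ u' ∈ U', φ (u * u') = 0) :
    Module.finrank k (img (ann φ) U) + Module.finrank k (img (ann φ) U') ≤
      Module.finrank k (A ⧸ ann φ) := by
  have h1 : img (ann φ) U' ≤ (form_Pair φ).orthogonal (img (ann φ) U) := by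
    rintro _ ⟨u', hu', rfl⟩
    rw [LinearMap.BilinForm.mem_orthogonal_iff]
    rintro _ ⟨u, hu, rfl⟩
    exact h u hu u' hu'
  have h2 := LinearMap.BilinForm.finrank_orthogonal (nondeg_Pair φ) (img (ann φ) U)
  have h3 := Submodule.finrank_mono h1
  have h4 := Submodule.finrank_le (img (ann φ) U)
  rw [h2] at h3
  omega

end Pool.Agent.CvR
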