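import Pool.Agent.CvR.Dim
import Pool.Agent.CvR.Pair

/-!
# Package CvR-Grow: the images of the filtration in a quotient (page 3.1)

`img_inj`: if `d M < finrank (A ⧸ J)` then `V M ∩ J = 0`: for `0 ≠ g ∈ V M ∩ J` the quotient `A ⧸
J` is a quotient of
`A ⧸ gA`, so `finrank (A ⧸ J) ≤ finrank (A ⧸ gA) ≤ d M` (`bez_le`). So `V M → A ⧸ J` is injective
and the
image has the same dimension (`LinearEquiv.finrank_eq`, `Submodule.equivMapOfInjective` or
`LinearMap.finrank_range_of_inj`).

`img_grow`: `min e (M + 1) ≤ finrank (img J (V M))`, `e = finrank (A ⧸ J)`, `J ≠ ⊤`. Write `W M =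
img J (V M)`.
`W 0` is spanned by `1 ≠ 0`: dimension `1` (`F.zero`). If `W M = W (M + 1)` then `W (M + 2) ≤ W
(M + 1)`:
by `F.gen`, `V (M + 2) ≤ V 1 * V (M + 1)`, so `W (M + 2) ≤ W 1 * W (M + 1) = W 1 * W M ≤ W (M +
1)` (`F.mul`;
products of submodules of the algebra `A ⧸ J`, `Submodule.map_mul`). Hence all later `W` are
equal to
`W M`, and since `⋃ W = ⊤` (`F.exh`), `W M = ⊤`, dimension `e`. Otherwise the dimension grows
strictly.
-/

set_option autoImplicit false

namespace Pool.Agent.CvR

open Pool.Agent.CvA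

variable {k A B : Type} [Field k] [CommRing A] [IsDomain A] [Algebra k A] [CommRing B]
  [Algebra k B] {d : ℕ}

theorem img_inj (F : Flt k A B d) (J : Ideal A) [FiniteDimensional k (A ⧸ J)] {M : ℕ}
    (h : d * M < Module.finrank k (A ⧸ J)) :
    Module.finrank k (img J (F.V M)) = Module.finrank k (F.V M) := by
  have key : ∀ g ∈ F.V M, g ∈ J → g = 0 := by
    intro g hg hgJ
    by_contra h0
    obtain ⟨hfin, hle⟩ := bez_le F hg h0
    have hsub : Ideal.span {g} ≤ J := (Ideal.span_singleton_le_iff_mem J).2 hgJ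
    have hsurj : Function.Surjective (Ideal.Quotient.factorₐ k hsub).toLinearMap :=
      Ideal.Quotient.factor_surjective hsub
    have h1 := LinearMap.finrank_le_finrank_of_surjective hsurj
    omega
  have hinj : Function.Injective
      ((Ideal.Quotient.mkₐ k J).toLinearMap.domRestrict (F.V M)) := by
    rw [← LinearMap.ker_eq_bot, LinearMap.ker_eq_bot']
    rintro ⟨g, hg⟩ h1
    have h2 : (Ideal.Quotient.mk J) g = 0 := h1
    exact Subtype.ext (key g hg (Ideal.Quotient.eq_zero_iff_mem.1 h2))
  have h1 := LinearMap.finrank_range_of_inj hinj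
  rw [LinearMap.range_domRestrict] at h1
  exact h1

omit [IsDomain A] in
private theorem img_mul_le_Grow (F : Flt k A B d) (J : Ideal A) (N M : ℕ) :
    img J (F.V N) * img J (F.V M) ≤ img J (F.V (N + M)) := by
  have h : F.V N * F.V M ≤ F.V (N + M) := Submodule.mul_le.2 fun a ha b hb => F.mul ha hb
  have h1 := Submodule.map_mono (f := (Ideal.Quotient.mkₐ k J).toLinearMap) h
  rwa [Submodule.map_mul] at h1

omit [IsDomain A] in
private theorem img_succ_le_Grow (F : Flt k A B d) (J : Ideal A) (N : ℕ) :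
    img J (F.V (N + 1)) ≤ img J (F.V 1) * img J (F.V N) := by
  have h1 := Submodule.map_mono (f := (Ideal.Quotient.mkₐ k J).toLinearMap) (F.gen N)
  rwa [Submodule.map_mul] at h1

omit [IsDomain A] in
private theorem img_top_Grow (F : Flt k A B d) (J : Ideal A) {M : ℕ}
    (h : img J (F.V (M + 1)) ≤ img J (F.V M)) : img J (F.V M) = ⊤ := by
  have hall : ∀ N : ℕ, img J (F.V (M + N)) ≤ img J (F.V M) := by
    intro N
    induction N with
    | zero => exact le_rfl
    | succ N ih =>
      refine (img_succ_le_Grow F J (M + N)).trans ?_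
      refine (mul_le_mul' le_rfl ih).trans ?_
      have h1 := img_mul_le_Grow F J 1 M
      rw [Nat.add_comm 1 M] at h1
      exact h1.trans h
  rw [eq_top_iff]
  rintro x -
  obtain ⟨a, rfl⟩ := Ideal.Quotient.mk_surjective x
  obtain ⟨N, hN⟩ := F.exh a
  exact hall N ⟨a, mono_le F (Nat.le_add_left N M) hN, rfl⟩

theorem img_grow (F : Flt k A B d) (J : Ideal A) (hJ : J ≠ ⊤) [FiniteDimensional k (A ⧸ J)]
    (M : ℕ) : min (Module.finrank k (A ⧸ J)) (M + 1) ≤ Module.finrank k (img J (F.V M)) := by
  have : Nontrivial (A ⧸ J) := Ideal.Quotient.nontrivial_iff.2 hJ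
  induction M with
  | zero =>
    have h1 : img J (F.V 0) = k ∙ (1 : A ⧸ J) := by
      rw [img, F.zero, Submodule.map_one, Submodule.one_eq_span]
    rw [h1, finrank_span_singleton one_ne_zero]
    exact min_le_right _ _
  | succ M ih =>
    by_cases h : img J (F.V (M + 1)) ≤ img J (F.V M)
    · have h1 := img_top_Grow F J h
      have h2 : img J (F.V (M + 1)) = ⊤ := by
        rw [eq_top_iff, ← h1]
        exact Submodule.map_mono (mono_le F (Nat.le_succ M))
      rw [h2, finrank_top]
      exact min_le_left _ _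
    · have h1 : img J (F.V M) < img J (F.V (M + 1)) :=
        lt_of_le_not_ge (Submodule.map_mono (mono_le F (Nat.le_succ M))) h
      have h2 := Submodule.finrank_lt_finrank_of_lt h1
      omega

end Pool.Agent.CvR
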